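import Pool.Agent.V1142.GR.RDefs
import Pool.Agent.Y800.Frob2
import Pool.Agent.Y800.Falt
import Pool.Agent.Y800.Diag

/-! Comparison of two representations over `ℚ̄_ℓ` by finitely many Frobenius traces. -/

set_option autoImplicit false
set_option linter.all false

namespace Pool.Agent.V1142.GR

open NumberField Filter Topology Polynomial Pool.Agent.Y800 Module

variable {n : ℕ} {ℓ : ℕ} [Fact ℓ.Prime]

theorem cont_trace {k : Type} [NormedField k] (ρ : GQ →* GL (Fin n) k) (hρ : Continuous ρ) :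
    Continuous fun g : GQ => (ρ g : Matrix (Fin n) (Fin n) k).trace :=
  (Units.continuous_val.comp hρ).matrix_trace

theorem pow_mono_aux {ℓ a b : ℕ} (hℓ : 1 ≤ ℓ) (h : a ≤ b) : (ℓ ^ a) ^ (ℓ ^ a) ≤ (ℓ ^ b) ^ (ℓ ^ b) := by
  have h1 : ℓ ^ a ≤ ℓ ^ b := Nat.pow_le_pow_right hℓ h
  exact (Nat.pow_le_pow_left h1 _).trans (Nat.pow_le_pow_right (Nat.one_le_pow _ _ hℓ) h1)

/-- finitely many primes suffice -/
theorem compare (n : ℕ) (ℓ : ℕ) [Fact ℓ.Prime] (S : Finset ℕ) (hS : ∀ p ∈ S, p.Prime) (m : ℕ) :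
    ∃ T : Finset ℕ, (∀ p ∈ T, p.Prime ∧ p ∉ S) ∧
      ∀ (ρ₁ ρ₂ : GQ →* GL (Fin n) (PadicAlgCl ℓ)), Continuous ρ₁ → Continuous ρ₂ →
      (∀ p : ℕ, p.Prime → p ∉ S → Unramified ρ₁ p ∧ Unramified ρ₂ p) →
      ∀ (E₁ E₂ : Submodule ℚ_[ℓ] (PadicAlgCl ℓ)) [FiniteDimensional ℚ_[ℓ] E₁] [FiniteDimensional ℚ_[ℓ] E₂],
      finrank ℚ_[ℓ] E₁ ≤ m → finrank ℚ_[ℓ] E₂ ≤ m →
      (∀ g, (ρ₁ g : Matrix (Fin n) (Fin n) (PadicAlgCl ℓ)).trace ∈ E₁) →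
      (∀ g, (ρ₂ g : Matrix (Fin n) (Fin n) (PadicAlgCl ℓ)).trace ∈ E₂) →
      (∀ p ∈ T, ∀ P : Ideal ZBar, P.IsMaximal → (p : ZBar) ∈ P → ∀ σ : GQ, IsGeomFrob p P σ →
        (ρ₁ σ : Matrix (Fin n) (Fin n) (PadicAlgCl ℓ)).trace =
          (ρ₂ σ : Matrix (Fin n) (Fin n) (PadicAlgCl ℓ)).trace) →
      ∀ g, (ρ₁ g : Matrix (Fin n) (Fin n) (PadicAlgCl ℓ)).trace =
        (ρ₂ g : Matrix (Fin n) (Fin n) (PadicAlgCl ℓ)).trace := by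
  classical
  let k : Type := PadicAlgCl ℓ
  let A : Type := Matrix (Fin n) (Fin n) k × Matrix (Fin n) (Fin n) k
  have hfr : finrank k A = 2 * n ^ 2 := by
    show finrank k (Matrix (Fin n) (Fin n) k × Matrix (Fin n) (Fin n) k) = _
    rw [Module.finrank_prod, Module.finrank_matrix, Module.finrank_self, Fintype.card_fin, mul_one]
    ring
  obtain ⟨T, hT, hD⟩ := exists_prime_set S hS S
    ((ℓ ^ (2 * (2 * n ^ 2) * (2 * m))) ^ (ℓ ^ (2 * (2 * n ^ 2) * (2 * m))))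
  refine ⟨T, hT, ?_⟩
  intro ρ₁ ρ₂ c₁ c₂ hun E₁ E₂ _ _ hm₁ hm₂ hE₁ hE₂ heq
  let τ₁ : A →ₗ[k] k := (Matrix.traceLinearMap (Fin n) k k) ∘ₗ LinearMap.fst k _ _
  let τ₂ : A →ₗ[k] k := (Matrix.traceLinearMap (Fin n) k k) ∘ₗ LinearMap.snd k _ _
  let r : GQ →* A := MonoidHom.prod ((Units.coeHom _).comp ρ₁) ((Units.coeHom _).comp ρ₂)
  have hr : ∀ g, r g = ((ρ₁ g : Matrix (Fin n) (Fin n) k), (ρ₂ g : Matrix (Fin n) (Fin n) k)) :=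
    fun g => rfl
  have hsup : finrank ℚ_[ℓ] ((E₁ ⊔ E₂ : Submodule ℚ_[ℓ] (PadicAlgCl ℓ))) ≤ 2 * m := by
    have h0 := Submodule.finrank_add_le_finrank_add_finrank E₁ E₂
    exact h0.trans (by rw [two_mul]; exact Nat.add_le_add hm₁ hm₂)
  obtain ⟨H, hHn, hHo, hHi, hHker, hH⟩ := falt_core (ℓ := ℓ) (k := k) r τ₁ τ₂
    (fun x y => Matrix.trace_mul_comm x.1 y.1) (fun x y => Matrix.trace_mul_comm x.2 y.2)
    (cont_trace ρ₁ c₁) (cont_trace ρ₂ c₂) (E₁ ⊔ E₂)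
    (fun g => Submodule.mem_sup_left (hE₁ g)) (fun g => Submodule.mem_sup_right (hE₂ g))
  have hidx : H.index ≤ (ℓ ^ (2 * (2 * n ^ 2) * (2 * m))) ^ (ℓ ^ (2 * (2 * n ^ 2) * (2 * m))) := by
    refine hHi.trans (pow_mono_aux (Fact.out : ℓ.Prime).one_lt.le ?_)
    rw [hfr]
    exact Nat.mul_le_mul_left _ hsup
  refine hH {x | ∃ p ∈ T, ∃ P : Ideal ZBar, P.IsMaximal ∧ (p : ZBar) ∈ P ∧ ∃ σ : GQ,
      IsGeomFrob p P σ ∧ ∃ τ : GQ, τ * σ * τ⁻¹ = x} ?_ ?_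
  · intro g
    have hin : ∀ p : ℕ, p.Prime → p ∉ S → ∀ P : Ideal ZBar, P.IsMaximal → (p : ZBar) ∈ P →
        ∀ τ : GQ, InInertia P τ → τ ∈ H := by
      intro p hp hpS P hP hpP τ hτ
      apply hHker
      rw [hr, (hun p hp hpS).1 P hP hpP τ hτ, (hun p hp hpS).2 P hP hpP τ hτ]
      rfl
    obtain ⟨p, hp, P, hP, hpP, σ, hσ, τ, hτ⟩ := hD H hHn hHo hidx hin g
    exact ⟨τ * σ * τ⁻¹, ⟨p, hp, P, hP, hpP, σ, hσ, τ, rfl⟩, hτ⟩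
  · rintro x ⟨p, hp, P, hP, hpP, σ, hσ, τ, rfl⟩
    show (ρ₁ (τ * σ * τ⁻¹) : Matrix (Fin n) (Fin n) k).trace =
      (ρ₂ (τ * σ * τ⁻¹) : Matrix (Fin n) (Fin n) k).trace
    rw [trace_conj_inv, trace_conj_inv]
    exact heq p hp P hP hpP σ hσ

end Pool.Agent.V1142.GR
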