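import Pool.Agent.Y800.Defs
import Mathlib.NumberTheory.Padics.Complex

/-! Galois representations attached to a system of algebraic Satake parameters, for one prime and all
embeddings. -/

set_option autoImplicit false

namespace Pool.Agent.V1142.GR

open NumberField Polynomial Pool.Agent.Y800

/-- For the embedding `ι` of the algebraic closure of `ℚ` into that of `ℚ_ℓ` there is a continuous
representation `ρ` of the absolute Galois group of `ℚ` on `ℚ̄_ℓ ^ n`, whose traces lie in a finite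
dimensional `ℚ_ℓ`-subspace `E` of `ℚ̄_ℓ` (this holds if `ρ` is defined over a finite extension of
`ℚ_ℓ`), and which for all primes `p ≠ ℓ` in `U` is unramified at `p`, the characteristic polynomial of
the geometric Frobenius elements at `p` being `ι (P p)`. -/
def RepFor (n : ℕ) (U : Set ℕ) (P : ℕ → (AlgebraicClosure ℚ)[X]) (ℓ : ℕ) [Fact ℓ.Prime]
    (ι : AlgebraicClosure ℚ →+* PadicAlgCl ℓ) : Prop :=
  ∃ ρ : GQ →* GL (Fin n) (PadicAlgCl ℓ), Continuous ρ ∧
    (∃ E : Submodule ℚ_[ℓ] (PadicAlgCl ℓ), FiniteDimensional ℚ_[ℓ] E ∧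
      ∀ g, (ρ g : Matrix (Fin n) (Fin n) (PadicAlgCl ℓ)).trace ∈ E) ∧
    ∀ p ∈ U, p.Prime → p ≠ ℓ → Unramified ρ p ∧
      ∀ Q : Ideal ZBar, Q.IsMaximal → (p : ZBar) ∈ Q → ∀ σ : GQ, IsGeomFrob p Q σ →
        (ρ σ : Matrix (Fin n) (Fin n) (PadicAlgCl ℓ)).charpoly = (P p).map ι

end Pool.Agent.V1142.GR
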