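import Pool.Agent.V1142.GR.Cmp
import Pool.Agent.Y800.Null

/-! The coefficients generate a number field. -/

set_option autoImplicit false
set_option linter.all false

namespace Pool.Agent.V1142.GR

open NumberField Filter Topology Polynomial Pool.Agent.Y800 Module

/-- the algebraic closure of `ℚ` -/
abbrev QB : Type := AlgebraicClosure ℚ

theorem exists_emb_QB (ℓ : ℕ) [Fact ℓ.Prime] : Nonempty (QB →+* PadicAlgCl ℓ) := by
  haveI : Algebra.IsAlgebraic ℚ QB := ⟨fun x => isAlgebraic_gen ℚ x⟩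
  exact ⟨(IsAlgClosed.lift : QB →ₐ[ℚ] PadicAlgCl ℓ).toRingHom⟩

attribute [-instance] DivisionRing.toRatAlgebra

theorem alg_QB (x : QB) : IsIntegral ℚ x := by
  have h : Algebra.IsAlgebraic ℚ QB := AlgebraicClosure.isAlgebraic ℚ
  exact (Algebra.IsAlgebraic.isAlgebraic (R := ℚ) x).isIntegral

theorem isOpen_of_inv {G : Type*} [Group G] [TopologicalSpace G] [IsTopologicalGroup G]
    (V : Subgroup G) (hV : IsOpen (V : Set G)) (S : Set G) (h : ∀ g ∈ S, ∀ v ∈ V, g * v ∈ S) :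
    IsOpen S := by
  rw [isOpen_iff_mem_nhds]
  intro g hg
  have h1 : (fun x => g⁻¹ * x) ⁻¹' (V : Set G) ∈ 𝓝 g := by
    refine (continuous_mul_left g⁻¹).continuousAt.preimage_mem_nhds ?_
    rw [inv_mul_cancel]
    exact hV.mem_nhds V.one_mem
  refine mem_of_superset h1 fun x hx => ?_
  have h2 := h g hg _ hx
  rwa [mul_inv_cancel_left] at h2

section span

variable {F V : Type*} [Field F] [AddCommGroup V] [Module F V]

/-- the span of a set without `m + 1` independent elements -/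
theorem span_le (S : Set V) (m : ℕ)
    (h : ∀ f : Fin (m + 1) → V, (∀ i, f i ∈ S) → ¬ LinearIndependent F f) :
    FiniteDimensional F (Submodule.span F S) ∧ finrank F (Submodule.span F S) ≤ m := by
  classical
  obtain ⟨b, hb, hspan, hli⟩ := exists_linearIndependent F S
  have hfin : b.Finite ∧ b.ncard ≤ m := by
    by_contra hcon
    obtain ⟨t, htb, htc⟩ : ∃ t : Finset V, (t : Set V) ⊆ b ∧ t.card = m + 1 := by
      by_cases hf : b.Finite
      · have h1 : m + 1 ≤ b.ncard := by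
          by_contra h2
          exact hcon ⟨hf, by omega⟩
        obtain ⟨t, ht, htc⟩ := Set.exists_subset_card_eq h1
        have htf : t.Finite := hf.subset ht
        refine ⟨htf.toFinset, by simpa using ht, ?_⟩
        rw [← Set.ncard_eq_toFinset_card t htf, htc]
      · exact (show b.Infinite from hf).exists_subset_card_eq (m + 1)
    let e : Fin (m + 1) ≃ t := (t.equivFinOfCardEq htc).symm
    refine h (fun i => (e i : V)) (fun i => hb (htb (e i).2)) ?_
    have h3 : LinearIndependent F (fun x : t => (x : V)) :=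
      hli.comp (fun x : t => (⟨x, htb x.2⟩ : b)) (fun x y hxy => Subtype.ext (congrArg (fun z : b => (z : V)) hxy))
    exact h3.comp e e.injective
  rw [← hspan]
  haveI := hfin.1.fintype
  haveI : FiniteDimensional F (Submodule.span F b) := FiniteDimensional.span_of_finite F hfin.1
  refine ⟨inferInstance, ?_⟩
  refine (finrank_span_le_card (R := F) b).trans ?_
  rw [← Set.ncard_eq_toFinset_card']
  exact hfin.2

end span

variable {n : ℕ} {ℓ : ℕ} [Fact ℓ.Prime]

/-- the embedding twisted by an automorphism -/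
noncomputable def tw (ι : QB →+* PadicAlgCl ℓ) (g : GQ) : QB →+* PadicAlgCl ℓ :=
  ι.comp ((g : QB ≃ₐ[ℚ] QB).toRingEquiv : QB →+* QB)

theorem tw_apply (ι : QB →+* PadicAlgCl ℓ) (g : GQ) (x : QB) : tw ι g x = ι (g x) := rfl

theorem tw_mul (ι : QB →+* PadicAlgCl ℓ) (g h : GQ) (x : QB) : tw ι (g * h) x = tw ι g (h x) := rfl

/-- all traces lie in the span of the Frobenius traces -/
theorem traces_in_span (hn : 0 < n) {S : Finset ℕ} {t : ℕ → PadicAlgCl ℓ}
    (ρ : GQ →* GL (Fin n) (PadicAlgCl ℓ)) (hρ : Continuous ρ)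
    (ht : ∀ p : ℕ, p.Prime → p ∉ S → ∀ P : Ideal ZBar, P.IsMaximal → (p : ZBar) ∈ P → ∀ σ : GQ,
      IsGeomFrob p P σ → (ρ σ : Matrix (Fin n) (Fin n) (PadicAlgCl ℓ)).trace = t p)
    (E : Submodule ℚ_[ℓ] (PadicAlgCl ℓ)) [FiniteDimensional ℚ_[ℓ] E]
    (hE : ∀ p : ℕ, p.Prime → p ∉ S → t p ∈ E) (g : GQ) :
    (ρ g : Matrix (Fin n) (Fin n) (PadicAlgCl ℓ)).trace ∈ E := by
  have hclosed : IsClosed (E : Set (PadicAlgCl ℓ)) := E.closed_of_finiteDimensional
  refine closed_univ {g : GQ | (ρ g : Matrix (Fin n) (Fin n) (PadicAlgCl ℓ)).trace ∈ E}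
    (hclosed.preimage (cont_trace ρ hρ)) ?_ S ?_ g
  · intro σ hσ τ
    show (ρ (τ * σ * τ⁻¹) : Matrix (Fin n) (Fin n) (PadicAlgCl ℓ)).trace ∈ E
    rw [trace_conj_inv]
    exact hσ
  · intro p hp hpS P hP hpP σ hσ
    show (ρ σ : Matrix (Fin n) (Fin n) (PadicAlgCl ℓ)).trace ∈ E
    rw [ht p hp hpS P hP hpP σ hσ]
    exact hE p hp hpS

/-- **The coefficients generate a number field.** -/
theorem number_field (hn : 0 < n) (U : Set ℕ) (hU : {p : ℕ | p.Prime ∧ p ∉ U}.Finite)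
    (P : ℕ → QB[X]) (h : ∀ ι : QB →+* PadicAlgCl ℓ, RepFor n U P ℓ ι) :
    ∃ E : IntermediateField ℚ QB, FiniteDimensional ℚ E ∧
      ∀ p ∈ U, p.Prime → p ≠ ℓ → ∀ i, (P p).coeff i ∈ E := by
  classical
  haveI : Nonempty (Fin n) := ⟨⟨0, hn⟩⟩
  haveI : IsGalois ℚ QB := inferInstance
  -- an embedding
  obtain ⟨ι⟩ := exists_emb_QB ℓ
  choose ρ hall0 using fun g : GQ => h (tw ι g)
  have hρ : ∀ g, Continuous (ρ g) := fun g => (hall0 g).1
  have hE := fun g => (hall0 g).2.1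
  have hρU := fun g => (hall0 g).2.2
  -- the exceptional primes
  set S : Finset ℕ := hU.toFinset ∪ {ℓ} with hS
  have hSp : ∀ p ∈ S, p.Prime := by
    intro p hp
    rcases Finset.mem_union.1 hp with h1 | h1
    · rw [Set.Finite.mem_toFinset] at h1
      exact h1.1
    · rw [Finset.mem_singleton.1 h1]
      exact Fact.out
  have hSU : ∀ p : ℕ, p.Prime → p ∉ S → p ∈ U ∧ p ≠ ℓ := by
    intro p hp hpS
    rw [hS, Finset.mem_union, not_or, Set.Finite.mem_toFinset, Finset.mem_singleton] at hpS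
    refine ⟨?_, hpS.2⟩
    by_contra h1
    exact hpS.1 ⟨hp, h1⟩
  let t : ℕ → QB := fun p => -(P p).coeff (n - 1)
  have htr : ∀ (g : GQ) (p : ℕ), p.Prime → p ∉ S → ∀ Q : Ideal ZBar, Q.IsMaximal → (p : ZBar) ∈ Q →
      ∀ σ : GQ, IsGeomFrob p Q σ →
      (ρ g σ : Matrix (Fin n) (Fin n) (PadicAlgCl ℓ)).trace = tw ι g (t p) := by
    intro g p hp hpS Q hQ hpQ σ hσ
    obtain ⟨h1, h2⟩ := hSU p hp hpS
    rw [Matrix.trace_eq_neg_charpoly_coeff, ((hρU g) p h1 hp h2).2 Q hQ hpQ σ hσ, Fintype.card_fin,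
      coeff_map, ← map_neg]
  -- the closed sets
  let X : ℕ → Set GQ := fun m => {g | ∀ f : Fin (m + 1) → ℕ, (∀ i, (f i).Prime ∧ f i ∉ S) →
    ¬ LinearIndependent ℚ_[ℓ] (fun i => tw ι g (t (f i)))}
  have hXc : ∀ m, IsClosed (X m) := by
    intro m
    have h1 : X m = ⋂ f : {f : Fin (m + 1) → ℕ // ∀ i, (f i).Prime ∧ f i ∉ S},
        {g | LinearIndependent ℚ_[ℓ] (fun i => tw ι g (t (f.1 i)))}ᶜ := by
      ext g
      simp only [X, Set.mem_setOf_eq, Set.mem_iInter, Set.mem_compl_iff, Subtype.forall]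
    rw [h1]
    refine isClosed_iInter fun f => ?_
    rw [isClosed_compl_iff]
    let F : IntermediateField ℚ QB := IntermediateField.adjoin ℚ (Set.range fun i => t (f.1 i))
    haveI : FiniteDimensional ℚ F :=
      IntermediateField.finiteDimensional_adjoin (S := Set.range fun i => t (f.1 i)) (fun x _ => alg_QB x)
    refine isOpen_of_inv F.fixingSubgroup (IntermediateField.fixingSubgroup_isOpen F) _ ?_
    intro g hg v hv
    have h2 : (fun i => tw ι (g * v) (t (f.1 i))) = fun i => tw ι g (t (f.1 i)) := by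
      funext i
      rw [tw_mul]
      congr 1
      have h3 : t (f.1 i) ∈ F := IntermediateField.subset_adjoin ℚ _ ⟨i, rfl⟩
      exact (IntermediateField.mem_fixingSubgroup_iff F v).1 hv _ h3
    show LinearIndependent ℚ_[ℓ] (fun i => tw ι (g * v) (t (f.1 i)))
    rw [h2]
    exact hg
  have hXU : ⋃ m, X m = Set.univ := by
    rw [Set.eq_univ_iff_forall]
    intro g
    obtain ⟨E, h1, h2⟩ := hE g
    rw [Set.mem_iUnion]
    refine ⟨finrank ℚ_[ℓ] E, fun f hf hli => ?_⟩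
    have h3 : ∀ i, tw ι g (t (f i)) ∈ E := by
      intro i
      obtain ⟨Q, σ, hQ, hpQ, hσ⟩ := exists_geom (hf i).1
      rw [← htr g (f i) (hf i).1 (hf i).2 Q hQ hpQ σ hσ]
      exact h2 σ
    have h4 : LinearIndependent ℚ_[ℓ] (fun i => (⟨tw ι g (t (f i)), h3 i⟩ : E)) := by
      apply LinearIndependent.of_comp E.subtype
      exact hli
    have h5 := h4.fintype_card_le_finrank
    rw [Fintype.card_fin] at h5
    omega
  obtain ⟨m, g₀, hg₀⟩ := nonempty_interior_of_iUnion_of_closed hXc hXU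
  -- a finite extension
  obtain ⟨F, hF1, hF2⟩ : ∃ F : IntermediateField ℚ QB, FiniteDimensional ℚ F ∧
      ∀ v ∈ F.fixingSubgroup, g₀ * v ∈ X m := by
    have h1 : (fun x => g₀ * x) ⁻¹' (X m) ∈ 𝓝 (1 : GQ) := by
      refine (continuous_mul_left g₀).continuousAt.preimage_mem_nhds ?_
      rw [mul_one]
      exact mem_interior_iff_mem_nhds.1 hg₀
    rw [krullTopology_mem_nhds_one_iff] at h1
    obtain ⟨F, hF, hF'⟩ := h1
    exact ⟨F, hF, fun v hv => hF' hv⟩
  -- the bounds for the spans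
  have hspan : ∀ g ∈ X m, ∃ W : Submodule ℚ_[ℓ] (PadicAlgCl ℓ), FiniteDimensional ℚ_[ℓ] W ∧
      finrank ℚ_[ℓ] W ≤ m ∧ ∀ x, (ρ g x : Matrix (Fin n) (Fin n) (PadicAlgCl ℓ)).trace ∈ W := by
    intro g hg
    obtain ⟨h1, h2⟩ := span_le (F := ℚ_[ℓ]) {x : PadicAlgCl ℓ | ∃ p : ℕ, (p.Prime ∧ p ∉ S) ∧ tw ι g (t p) = x}
      m (by
        intro f hf
        choose q hq1 hq2 using hf
        have h3 := hg q hq1
        have h4 : (fun i => tw ι g (t (q i))) = f := funext hq2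
        rwa [h4] at h3)
    refine ⟨_, h1, h2, ?_⟩
    haveI := h1
    exact traces_in_span hn (ρ g) (hρ g) (t := fun p => tw ι g (t p)) (htr g) _
      (fun p hp hpS => Submodule.subset_span ⟨p, ⟨hp, hpS⟩, rfl⟩)
  obtain ⟨T, hT, hcmp⟩ := compare n ℓ S hSp m
  let F' : IntermediateField ℚ QB := IntermediateField.adjoin ℚ ((T.image t : Finset QB) : Set QB)
  haveI : FiniteDimensional ℚ F' :=
    IntermediateField.finiteDimensional_adjoin (S := ((T.image t : Finset QB) : Set QB)) (fun x _ => alg_QB x)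
  haveI := hF1
  refine ⟨F ⊔ F', inferInstance, ?_⟩
  intro p hp hpp hpℓ i
  have hpS : p ∉ S := by
    rw [hS, Finset.mem_union, not_or, Set.Finite.mem_toFinset, Finset.mem_singleton]
    exact ⟨fun h => h.2 hp, hpℓ⟩
  rw [← InfiniteGalois.fixedField_fixingSubgroup (F ⊔ F'), IntermediateField.mem_fixedField_iff]
  intro v hv
  have hvF : v ∈ F.fixingSubgroup := IntermediateField.fixingSubgroup_le (le_sup_left : F ≤ F ⊔ F') hv
  have hvF' : v ∈ F'.fixingSubgroup := IntermediateField.fixingSubgroup_le (le_sup_right : F' ≤ F ⊔ F') hv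
  have hg1 : g₀ ∈ X m := interior_subset hg₀
  have hg2 : g₀ * v ∈ X m := hF2 v hvF
  obtain ⟨W₁, i1, m1, w1⟩ := hspan g₀ hg1
  obtain ⟨W₂, i2, m2, w2⟩ := hspan (g₀ * v) hg2
  have hall := hcmp (ρ g₀) (ρ (g₀ * v)) (hρ _) (hρ _)
    (fun q hq hqS => ⟨((hρU g₀) q (hSU q hq hqS).1 hq (hSU q hq hqS).2).1,
      ((hρU (g₀ * v)) q (hSU q hq hqS).1 hq (hSU q hq hqS).2).1⟩) W₁ W₂ m1 m2 w1 w2 (by
      intro q hq Q hQ hqQ σ hσ
      rw [htr g₀ q (hT q hq).1 (hT q hq).2 Q hQ hqQ σ hσ, htr (g₀ * v) q (hT q hq).1 (hT q hq).2 Q hQ hqQ σ hσ,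
        tw_mul]
      congr 1
      have h3 : t q ∈ F' := IntermediateField.subset_adjoin ℚ _ (by
        rw [Finset.mem_coe]
        exact Finset.mem_image_of_mem t hq)
      exact ((IntermediateField.mem_fixingSubgroup_iff F' v).1 hvF' _ h3).symm)
  obtain ⟨Q, σ, hQ, hpQ, hσ⟩ := exists_geom hpp
  have h5 := charpoly_of_traces (ρ g₀) (ρ (g₀ * v)) hall σ
  rw [((hρU g₀) p hp hpp hpℓ).2 Q hQ hpQ σ hσ, ((hρU (g₀ * v)) p hp hpp hpℓ).2 Q hQ hpQ σ hσ] at h5
  have h6 : ((P p).map (tw ι g₀)).coeff i = ((P p).map (tw ι (g₀ * v))).coeff i := by rw [h5]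
  rw [coeff_map, coeff_map, tw_mul] at h6
  exact ((tw ι g₀).injective h6).symm

end Pool.Agent.V1142.GR
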