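import Pool.Agent.V1142.GR.Rat

/-! The number field as a type. -/

set_option autoImplicit false
set_option linter.all false

namespace Pool.Agent.V1142.GR

open NumberField Filter Topology Polynomial Pool.Agent.Y800 Module

section

attribute [-instance] DivisionRing.toRatAlgebra

theorem to_nf (E : IntermediateField ℚ QB) (hE : FiniteDimensional ℚ E) :
    ∃ (K : Type) (_ : Field K) (_ : NumberField K) (e : K →+* QB), ∀ x ∈ E, x ∈ e.range := by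
  have h1 : @NumberField E inferInstance := by
    refine @NumberField.mk E inferInstance inferInstance ?_
    convert hE
  exact ⟨E, inferInstance, h1, (algebraMap E QB), fun x hx => ⟨⟨x, hx⟩, rfl⟩⟩

theorem sup_fd (E₁ E₂ : IntermediateField ℚ QB) (h₁ : FiniteDimensional ℚ E₁) (h₂ : FiniteDimensional ℚ E₂) :
    FiniteDimensional ℚ ↥(E₁ ⊔ E₂) := inferInstance

theorem nf_one {n : ℕ} {ℓ : ℕ} [Fact ℓ.Prime] (hn : 0 < n) (U : Set ℕ)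
    (hU : {p : ℕ | p.Prime ∧ p ∉ U}.Finite) (P : ℕ → QB[X]) (h : ∀ ι : QB →+* PadicAlgCl ℓ, RepFor n U P ℓ ι) :
    ∃ (K : Type) (_ : Field K) (_ : NumberField K) (e : K →+* QB),
      ∀ p ∈ U, p.Prime → p ≠ ℓ → ∀ i, (P p).coeff i ∈ e.range := by
  obtain ⟨E, hE, h1⟩ := number_field hn U hU P h
  obtain ⟨K, i1, i2, e, h2⟩ := to_nf E hE
  exact ⟨K, i1, i2, e, fun p hp hpp hpℓ i => h2 _ (h1 p hp hpp hpℓ i)⟩

theorem nf_two {n : ℕ} {ℓ₁ ℓ₂ : ℕ} [Fact ℓ₁.Prime] [Fact ℓ₂.Prime] (hn : 0 < n) (U : Set ℕ)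
    (hU : {p : ℕ | p.Prime ∧ p ∉ U}.Finite) (P : ℕ → QB[X]) (hne : ℓ₁ ≠ ℓ₂)
    (h₁ : ∀ ι : QB →+* PadicAlgCl ℓ₁, RepFor n U P ℓ₁ ι) (h₂ : ∀ ι : QB →+* PadicAlgCl ℓ₂, RepFor n U P ℓ₂ ι) :
    ∃ (K : Type) (_ : Field K) (_ : NumberField K) (e : K →+* QB),
      ∀ p ∈ U, p.Prime → ∀ i, (P p).coeff i ∈ e.range := by
  obtain ⟨E₁, hE₁, h3⟩ := number_field hn U hU P h₁
  obtain ⟨E₂, hE₂, h4⟩ := number_field hn U hU P h₂
  obtain ⟨K, i1, i2, e, h5⟩ := to_nf (E₁ ⊔ E₂) (sup_fd E₁ E₂ hE₁ hE₂)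
  refine ⟨K, i1, i2, e, fun p hp hpp i => h5 _ ?_⟩
  by_cases h : p = ℓ₁
  · exact (le_sup_right : E₂ ≤ E₁ ⊔ E₂) (h4 p hp hpp (by rw [h]; exact hne) i)
  · exact (le_sup_left : E₁ ≤ E₁ ⊔ E₂) (h3 p hp hpp h i)

end

end Pool.Agent.V1142.GR
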